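import Pool.Agent.E8helper2.PS.Stm

/-!
# Project PS, piece FIN: finitely many gaps fill the complement of a closed set up to `ε`
-/

set_option autoImplicit false

open MeasureTheory Filter Topology

namespace Pool.Agent.E8helper12.PS

open Pool.Agent.E8helper2.PS

theorem t_FIN : S_FIN := by
  intro S x hS hx hx' ε hε
  classical
  set U : Set ℝ := Set.Ioo x (x + 2 * Real.pi) \ S with hU
  have hUo : IsOpen U := isOpen_Ioo.sdiff hS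
  have hUfin : volume U ≠ ⊤ := by
    refine ne_top_of_le_ne_top ?_ (measure_mono (Set.sdiff_subset (s := Set.Ioo x (x + 2 * Real.pi)) (t := S)))
    rw [Real.volume_Ioo]
    exact ENNReal.ofReal_ne_top
  have hε' : ENNReal.ofReal ε ≠ 0 := by
    rw [Ne, ENNReal.ofReal_eq_zero, not_le]
    exact hε
  obtain ⟨C, hCU, hC, hCv⟩ := hUo.measurableSet.exists_isCompact_sdiff_lt hUfin hε'
  let e1 : ℝ → ℝ := fun y => sSup (S ∩ Set.Iic y)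
  let e2 : ℝ → ℝ := fun y => sInf (S ∩ Set.Ici y)
  have key : ∀ y ∈ U, (e1 y < y ∧ y < e2 y) ∧ e1 y ∈ S ∧ e2 y ∈ S ∧ x ≤ e1 y ∧
      e2 y ≤ x + 2 * Real.pi ∧ ∀ θ ∈ Set.Ioo (e1 y) (e2 y), θ ∉ S := by
    intro y hy
    obtain ⟨⟨hy1, hy2⟩, hyS⟩ := hy
    have hb1 : BddAbove (S ∩ Set.Iic y) := ⟨y, fun z hz => hz.2⟩
    have hb2 : BddBelow (S ∩ Set.Ici y) := ⟨y, fun z hz => hz.2⟩
    have hn1 : x ∈ S ∩ Set.Iic y := ⟨hx, hy1.le⟩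
    have hn2 : x + 2 * Real.pi ∈ S ∩ Set.Ici y := ⟨hx', hy2.le⟩
    have h1 : e1 y ∈ S ∩ Set.Iic y := (hS.inter isClosed_Iic).csSup_mem ⟨x, hn1⟩ hb1
    have h2 : e2 y ∈ S ∩ Set.Ici y := (hS.inter isClosed_Ici).csInf_mem ⟨_, hn2⟩ hb2
    have h3 : e1 y ≠ y := fun h => hyS (h ▸ h1.1)
    have h4 : e2 y ≠ y := fun h => hyS (h ▸ h2.1)
    refine ⟨⟨lt_of_le_of_ne h1.2 h3, lt_of_le_of_ne h2.2 h4.symm⟩, h1.1, h2.1,
      le_csSup hb1 hn1, csInf_le hb2 hn2, ?_⟩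
    intro θ hθ hθS
    rcases le_total θ y with h | h
    · exact absurd hθ.1 (not_lt.2 (le_csSup hb1 ⟨hθS, h⟩))
    · exact absurd hθ.2 (not_lt.2 (csInf_le hb2 ⟨hθS, h⟩))
  obtain ⟨t, ht, hcov⟩ := hC.elim_nhds_subcover (fun y => Set.Ioo (e1 y) (e2 y))
    (fun y hy => Ioo_mem_nhds (key y (hCU hy)).1.1 (key y (hCU hy)).1.2)
  refine ⟨t.image fun y => (e1 y, e2 y), ?_, ?_⟩
  · intro p hp
    obtain ⟨y, hy, rfl⟩ := Finset.mem_image.1 hp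
    obtain ⟨⟨h1, h2⟩, h3⟩ := key y (hCU (ht y hy))
    exact ⟨h1.trans h2, h3⟩
  · apply ENNReal.toReal_le_of_le_ofReal hε.le
    refine le_trans (measure_mono ?_) hCv.le
    rintro θ ⟨hθ, hθ'⟩
    refine ⟨hθ, fun hC' => hθ' ?_⟩
    obtain ⟨y, hy, hyθ⟩ := Set.mem_iUnion₂.1 (hcov hC')
    exact Set.mem_iUnion₂.2 ⟨(e1 y, e2 y), Finset.mem_image.2 ⟨y, hy, rfl⟩, hyθ⟩

end Pool.Agent.E8helper12.PS
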